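import Mathlib
import Pool.Agent.H744R2.HochDefs
import Pool.Agent.H744R2.HochFinal

set_option autoImplicit false

/-!
# Higher cohomology of `C(Ω)` with symmetric coefficients does not vanish

There is a compact Hausdorff space `Ω` such that for every `n ≥ 3` there is a symmetric (unital)
Banach `C(Ω)`-bimodule `X` with `Hⁿ(C(Ω), X) ≠ 0`.

Outline.  Let `Γ` be a very large discrete set, split into blocks `Γ₀, Γ₁, …` of rapidly increasing
cardinality, and let `A = C(Ω)` be the algebra of the bounded functions on `Γ` which are constant
off a countable set, with the character `χ` = value at infinity and `I = ker χ`.  Let `X` be the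
space of those functions `F` on `Γ^(n-1)`, countably supported and uniformly approximable by step
functions with respect to finite partitions of `Γ`, for which
`∑_j (-1)^j F(…, x_j, x_j, …) = 0`, with `a · F = χ(a) F = F · a`.  The map
`(a₁, …, a_n) ↦ ∑_j (-1)^j (a₁ ⊗ ⋯ ⊗ a_n)(…, x_j, x_j, …)` (`a_i ∈ I`) is an `n`-cocycle.
If it were a coboundary one would get a bounded multilinear map `R` from `(n-2)`-tuples of
functions on the blocks to such functions with `b' R(a) = a₁ ⊗ ⋯ ⊗ a_{n-2}`.  A free set argument
gives countable subsets of the blocks on which `R` of unit vectors is supported on the diagonal, an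
almost disjoint family argument (as in the proof of Phillips' theorem that `c₀` is not complemented
in `ℓ^∞`) propagates this to the indicator functions of suitable infinite sets, and this contradicts
the approximability by step functions.
-/

namespace Pool.Agent.Results.MP_92c8f1_an.NonvanishingCOmega

open Pool.Agent.H744R2 Pool.Agent.H744R2.Hoch

/-- There is a compact Hausdorff space `Ω` such that for every `n ≥ 3` there is a symmetric unital
Banach `C(Ω)`-bimodule `X` with `Hⁿ(C(Ω), X) ≠ 0`. -/
theorem result :
    ∃ (Ω : Type) (_ : TopologicalSpace Ω) (_ : CompactSpace Ω) (_ : T2Space Ω),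
      ∀ n : ℕ, 3 ≤ n →
        ∃ (X : Type) (_ : NormedAddCommGroup X) (_ : NormedSpace ℂ X) (_ : CompleteSpace X)
          (M : BanachBimodule C(Ω, ℂ) X),
          M.IsSymmetric ∧ M.IsUnital ∧ ¬ M.CohomologyVanishes n := by
  refine ⟨Om, inferInstance, inferInstance, inferInstance, ?_⟩
  intro n hn
  obtain ⟨k, rfl⟩ := Nat.exists_eq_add_of_le hn
  rw [Nat.add_comm 3 k]
  refine ⟨Xsub (k+1), inferInstance, inferInstance, inferInstance,
    trivB chiC chiC_mul (Xsub (k+1)), fun a x => rfl, fun x => ?_, not_vanishes k⟩
  have h : (trivB chiC chiC_mul (Xsub (k+1))).lact 1 x = x := by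
    change chiC 1 • x = x
    have : chiC 1 = 1 := by
      change chi (gB 1) = 1
      rw [gB_one, chi_one]
    rw [this, one_smul]
  exact ⟨h, h⟩

end Pool.Agent.Results.MP_92c8f1_an.NonvanishingCOmega
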